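import Mathlib
import Pool.Agent.TH881.RepF

/-! Even numbers which are a sum of a prime and an `a`-prime. -/

set_option autoImplicit false

namespace Pool.Agent.Results.MP_778b46_nt.ManyEvenNumbers
open Finset Filter Topology
open Pool.Agent.TH881

open Classical in
/-- For every `a` and every `c < exp (-γ)`, at least `c X / log log log X` of the even numbers up
to `X` are `(a, 0)`-representable, for all large `X`. -/
theorem result (a : ℕ) (c : ℝ) (hc : c < Real.exp (-Real.eulerMascheroniConstant)) :
    ∀ᶠ X : ℕ in atTop, c * (X / Real.log (Real.log (Real.log X))) ≤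
      (((Icc 1 X).filter (fun m => Even m ∧ IsRep a 0 m)).card : ℝ) :=
  rep_many a c hc

end Pool.Agent.Results.MP_778b46_nt.ManyEvenNumbers
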